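import Pool.Agent.Y320.ST.Stm

/-!
Nearly conformal linear maps (helper302, job ST-NEARC).
-/

set_option autoImplicit false
open Filter Topology MeasureTheory Metric

namespace Pool.Agent.Y302.ST
open Pool.Agent.Y320.CM Pool.Agent.Y320.ST

lemma det_eq (T : ℂ →L[ℝ] ℂ) :
    T.det = (T 1).re * (T Complex.I).im - (T 1).im * (T Complex.I).re := by
  have h : T.det = LinearMap.det (T : ℂ →ₗ[ℝ] ℂ) := rfl
  rw [h, ← LinearMap.det_toMatrix Complex.basisOneI, Matrix.det_fin_two]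
  simp [LinearMap.toMatrix_apply]
  ring

lemma nsq (z : ℂ) : ‖z‖ ^ 2 = z.re ^ 2 + z.im ^ 2 := by
  rw [Complex.sq_norm, Complex.normSq_apply]
  ring

/-- nearly conformal linear maps -/
theorem nearc : S_NEARC := by
  intro η hη
  refine ⟨min (1 / 4) (η ^ 2 / 4), lt_min (by norm_num) (by positivity), fun T κ hκ hdet hT => ?_⟩
  obtain ⟨ε, hε⟩ : ∃ ε : ℝ, ε = min (1 / 4) (η ^ 2 / 4) := ⟨_, rfl⟩
  rw [← hε] at hT
  have hε1 : ε ≤ 1 / 4 := by rw [hε]; exact min_le_left _ _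
  have hε2 : ε ≤ η ^ 2 / 4 := by rw [hε]; exact min_le_right _ _
  have hε0 : 0 < ε := by rw [hε]; exact lt_min (by norm_num) (by positivity)
  obtain ⟨a, ha⟩ : ∃ a, a = (T 1).re := ⟨_, rfl⟩
  obtain ⟨b, hb⟩ : ∃ b, b = (T 1).im := ⟨_, rfl⟩
  obtain ⟨c, hc⟩ : ∃ c, c = (T Complex.I).re := ⟨_, rfl⟩
  obtain ⟨d, hd⟩ : ∃ d, d = (T Complex.I).im := ⟨_, rfl⟩
  have hTw : ∀ w : ℂ, T w = (w.re : ℂ) * T 1 + (w.im : ℂ) * T Complex.I := by
    intro w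
    have h1 : w = w.re • (1 : ℂ) + w.im • Complex.I := by
      apply Complex.ext <;> simp
    conv_lhs => rw [h1]
    rw [map_add, map_smul, map_smul, Complex.real_smul, Complex.real_smul]
  have hD : T.det = a * d - b * c := by
    rw [det_eq, ha, hb, hc, hd]
  rw [hD] at hdet
  have h1 := hT 1
  have h2 := hT Complex.I
  have h3 := hT (1 + Complex.I)
  rw [map_add] at h3
  rw [nsq, nsq] at h1 h2 h3
  simp only [Complex.add_re, Complex.add_im, Complex.one_re, Complex.one_im, Complex.I_re,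
    Complex.I_im, ← ha, ← hb, ← hc, ← hd] at h1 h2 h3
  rw [abs_le] at h1 h2 h3
  norm_num at h1 h2 h3
  obtain ⟨D, hDd⟩ : ∃ D, D = a * d - b * c := ⟨_, rfl⟩
  obtain ⟨R, hR⟩ : ∃ R, R = a * c + b * d := ⟨_, rfl⟩
  rw [← hDd] at hdet
  have hR1 : R ≤ 2 * ε * κ := by rw [hR]; nlinarith
  have hR2 : -(2 * ε * κ) ≤ R := by rw [hR]; nlinarith
  have hid : D ^ 2 = (a ^ 2 + b ^ 2) * (c ^ 2 + d ^ 2) - R ^ 2 := by rw [hDd, hR]; ring
  have hp : (1 - ε) * κ ≤ a ^ 2 + b ^ 2 := by linarith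
  have hq : (1 - ε) * κ ≤ c ^ 2 + d ^ 2 := by linarith
  have hRsq : R ^ 2 ≤ (2 * ε * κ) ^ 2 := sq_le_sq' hR2 hR1
  have h1ε : 0 ≤ (1 - ε) * κ := mul_nonneg (by linarith) hκ.le
  have hpq : ((1 - ε) * κ) * ((1 - ε) * κ) ≤ (a ^ 2 + b ^ 2) * (c ^ 2 + d ^ 2) :=
    mul_le_mul hp hq h1ε (by positivity)
  have hD3 : (1 - 3 * ε) * κ ≤ D := by
    apply le_of_sq_le_sq _ hdet
    have e1 : ((1 - 3 * ε) * κ) ^ 2 = ((1 - ε) * κ) * ((1 - ε) * κ) - (2 * ε * κ) ^ 2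
        - 4 * (1 - 3 * ε) * (ε * κ ^ 2) := by ring
    have e2 : 0 ≤ 4 * (1 - 3 * ε) * (ε * κ ^ 2) := by
      apply mul_nonneg (by linarith) (by positivity)
    rw [e1]
    linarith
  obtain ⟨α, hα⟩ : ∃ α : ℂ, α = ⟨(a + d) / 2, (b - c) / 2⟩ := ⟨_, rfl⟩
  obtain ⟨β, hβ⟩ : ∃ β : ℂ, β = ⟨(a - d) / 2, (b + c) / 2⟩ := ⟨_, rfl⟩
  have hαn : ‖α‖ ^ 2 = ((a ^ 2 + b ^ 2) + (c ^ 2 + d ^ 2) + 2 * D) / 4 := by
    rw [nsq, hα, hDd]
    ring
  have hβn : ‖β‖ ^ 2 = ((a ^ 2 + b ^ 2) + (c ^ 2 + d ^ 2) - 2 * D) / 4 := by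
    rw [nsq, hβ, hDd]
    ring
  have hα1 : κ / 2 ≤ ‖α‖ ^ 2 := by
    rw [hαn]
    nlinarith
  have hβ1 : ‖β‖ ^ 2 ≤ 2 * ε * κ := by
    rw [hβn]
    linarith
  have hβα : ‖β‖ ≤ η * ‖α‖ := by
    apply le_of_sq_le_sq _ (by positivity)
    rw [mul_pow]
    have e3 : η ^ 2 * (κ / 2) ≤ η ^ 2 * ‖α‖ ^ 2 := mul_le_mul_of_nonneg_left hα1 (by positivity)
    have e4 : 2 * ε * κ ≤ 2 * (η ^ 2 / 4) * κ := by
      apply mul_le_mul_of_nonneg_right _ hκ.le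
      linarith
    linarith
  refine ⟨α, ?_, fun w => ?_⟩
  · intro h0
    rw [h0, norm_zero] at hα1
    norm_num at hα1
    linarith
  · have e5 : T w - α * w = β * (starRingEnd ℂ) w := by
      rw [hTw w]
      apply Complex.ext
      · simp [hα, hβ, ← ha, ← hb, ← hc, ← hd]
        ring
      · simp [hα, hβ, ← ha, ← hb, ← hc, ← hd]
        ring
    rw [e5, norm_mul, RCLike.norm_conj]
    exact mul_le_mul_of_nonneg_right hβα (norm_nonneg _)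

end Pool.Agent.Y302.ST
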